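import Pool.Agent.Q331.CM.Count

/-! The moduli that are multiples of exceptional conductors. -/

set_option autoImplicit false

namespace Pool.Agent.Q331.CM

open Finset Filter
open Pool.Agent.Q213.CC

open Classical in
/-- all sizes `F` -/
theorem sizes (n : ℕ) (hn : 1 ≤ n) (β : ℝ) (hβ : 1 ≤ β) (hβ4 : β < 4 / 3) :
    ∃ s : ℝ, 0 < s ∧ s ≤ 1 / 24 ∧ ∃ δ : ℝ, 0 < δ ∧ δ ≤ s ∧ ∃ N₀ : ℕ, ∀ N : ℕ, N₀ ≤ N → ∀ F : ℕ,
    (N : ℝ) ^ ((1 - s) / n) ≤ F → (F : ℝ) ≤ 8 * N →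
    (∑ f ∈ Icc 1 F, ((exc ⌊(N : ℝ) ^ (β / n)⌋₊ ⌊(N : ℝ) ^ (1 / (n : ℝ))⌋₊ ((N : ℝ) ^ ((1 - δ) / n)) f).card : ℝ)) ≤
      2 * F * (N : ℝ) ^ (-(s / (2 * n))) := by
  have hn0 : (0 : ℝ) < n := by exact_mod_cast hn
  obtain ⟨s, hs⟩ : ∃ s : ℝ, s = (4 / 3 - β) / 8 := ⟨_, rfl⟩
  have hs0 : 0 < s := by rw [hs]; linarith
  have hs1 : s ≤ 1 / 24 := by rw [hs]; linarith
  obtain ⟨K, hK⟩ : ∃ K : ℕ, K = n + 3 := ⟨_, rfl⟩
  obtain ⟨δ, hδd⟩ : ∃ δ : ℝ, δ = s / (8 * (2 * K + 2)) := ⟨_, rfl⟩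
  have hK0 : (0 : ℝ) ≤ K := Nat.cast_nonneg K
  have hδ : 0 < δ := by rw [hδd]; positivity
  have hδK : (2 * K + 2) * δ = s / 2 / 4 := by rw [hδd]; field_simp; norm_num
  have hδs : δ ≤ s := by nlinarith
  have hlev : ∀ k : ℕ, ∃ N₀ : ℕ, 1 ≤ k → k ≤ K → ∀ N : ℕ, N₀ ≤ N → ∀ F : ℕ,
      (∑ f ∈ Icc 1 F, ((exc ⌊(N : ℝ) ^ (β / n)⌋₊ ⌊(N : ℝ) ^ (1 / (n : ℝ))⌋₊ ((N : ℝ) ^ ((1 - δ) / n)) f).card : ℝ)) ≤
      (N : ℝ) ^ ((β - 1 - k + s / 2) / n) * ((N : ℝ) ^ (k * β / n) + (F : ℝ) ^ 2) := by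
    intro k
    by_cases hk : 1 ≤ k ∧ k ≤ K
    · have h1 : (k : ℝ) ≤ K := by exact_mod_cast hk.2
      obtain ⟨N₀, h⟩ := level n k hn hk.1 β hβ (s / 2) (by positivity) δ hδ (by
        rw [← hδK]
        exact mul_le_mul_of_nonneg_right (by linarith) hδ.le)
      exact ⟨N₀, fun _ _ => h⟩
    · exact ⟨0, fun h1 h2 => absurd ⟨h1, h2⟩ hk⟩
  choose N₀ hN₀ using hlev
  have hev : ∀ᶠ N : ℕ in Filter.atTop, (8 : ℝ) ≤ (N : ℝ) ^ (1 / (n : ℝ)) := by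
    have h1 : Filter.Tendsto (fun x : ℝ => x ^ (1 / (n : ℝ))) Filter.atTop Filter.atTop :=
      tendsto_rpow_atTop (by positivity)
    exact (h1.comp tendsto_natCast_atTop_atTop).eventually (Filter.eventually_ge_atTop _)
  obtain ⟨N₁, hN₁⟩ := Filter.eventually_atTop.1 hev
  refine ⟨s, hs0, hs1, δ, hδ, hδs, (∑ k ∈ range (K + 1), N₀ k) + N₁ + 1, fun N hN F hF1 hF2 => ?_⟩
  have hN1 : (1 : ℝ) ≤ N := by exact_mod_cast (by omega : 1 ≤ N)
  have hN0 : (0 : ℝ) < N := by linarith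
  obtain ⟨y, hy⟩ : ∃ y : ℝ, y = (N : ℝ) ^ (1 / (n : ℝ)) := ⟨_, rfl⟩
  have hy8 : 8 ≤ y := by rw [hy]; exact hN₁ N (by omega)
  have hy0 : 0 < y := by linarith
  have hy1 : 1 < y := by linarith
  have hF0 : (0 : ℝ) < F := lt_of_lt_of_le (by positivity) hF1
  have hpow : ∀ a : ℝ, (N : ℝ) ^ (a / n) = y ^ a := by
    intro a
    rw [hy, ← Real.rpow_mul hN0.le]
    congr 1
    ring
  obtain ⟨x, hx⟩ : ∃ x : ℝ, x = Real.logb y F := ⟨_, rfl⟩
  have hFx : (F : ℝ) = y ^ x := by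
    rw [hx, Real.rpow_logb hy0 hy1.ne' hF0]
  have hx1 : 1 - s ≤ x := by
    rw [hpow, hFx] at hF1
    exact (Real.rpow_le_rpow_left_iff hy1).1 hF1
  have hx2 : x ≤ n + 1 := by
    rw [← Real.rpow_le_rpow_left_iff hy1, ← hFx, Real.rpow_add hy0, Real.rpow_one]
    have h1 : y ^ (n : ℝ) = N := by
      rw [← hpow, div_self hn0.ne', Real.rpow_one]
    rw [h1]
    nlinarith
  obtain ⟨k, hk1, hk2, hk3, hk4⟩ := pick β hβ hβ4 s hs0 (by rw [hs]; linarith) x hx1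
  have hkK : k ≤ K := by
    have : (k : ℝ) < n + 3 := by linarith
    have h2 : (k : ℝ) < ((n + 3 : ℕ) : ℝ) := by push_cast; exact this
    have h3 : k < n + 3 := by exact_mod_cast h2
    omega
  have hNk : N₀ k ≤ ∑ k ∈ range (K + 1), N₀ k :=
    single_le_sum (fun _ _ => Nat.zero_le _) (mem_range.2 (by omega))
  have h := hN₀ k hk1 hkK N (by omega) F
  refine h.trans ?_
  rw [show -(s / (2 * n)) = (-(s / 2)) / n by ring, hpow, hpow, hpow, mul_add]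
  have e1 : y ^ (β - 1 - k + s / 2) * y ^ (k * β) ≤ F * y ^ (-(s / 2)) := by
    rw [hFx, ← Real.rpow_add hy0, ← Real.rpow_add hy0]
    apply Real.rpow_le_rpow_of_exponent_le hy1.le
    linarith
  have e2 : y ^ (β - 1 - k + s / 2) * (F : ℝ) ^ 2 ≤ F * y ^ (-(s / 2)) := by
    rw [hFx, ← Real.rpow_natCast (y ^ x) 2, ← Real.rpow_mul hy0.le, ← Real.rpow_add hy0, ← Real.rpow_add hy0]
    apply Real.rpow_le_rpow_of_exponent_le hy1.le
    push_cast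
    linarith
  linarith

/-- the number of the multiples -/
lemma card_multiples (Z f : ℕ) (hf : 1 ≤ f) : (((Icc 1 Z).filter (fun q => f ∣ q)).card : ℝ) ≤ Z / f := by
  have h1 : ((Icc 1 Z).filter (fun q => f ∣ q)) = ((Ioc 0 Z).filter (fun q => f ∣ q)) := by
    congr 1
  rw [h1, Nat.Ioc_filter_dvd_card_eq_div]
  exact Nat.cast_div_le

/-- a dyadic decomposition -/
lemma dyadic (a : ℕ → ℝ) (ha : ∀ f, 0 ≤ a f) (Z : ℕ) (v B : ℝ) (hB : 0 ≤ B)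
    (hv : ∀ f : ℕ, 2 ≤ f → (f : ℝ) < v → a f = 0)
    (hF : ∀ F : ℕ, v ≤ F → F ≤ 2 * Z → ∑ f ∈ Icc 1 F, a f ≤ B * F) :
    ∑ f ∈ Icc 2 Z, a f / f ≤ 2 * B * ((Nat.log 2 (2 * Z) : ℕ) + 1) := by
  classical
  have h1 : ∀ f ∈ Icc 2 Z, a f / f ≤ ∑ j ∈ range (Nat.log 2 (2 * Z) + 1),
      if (f ≤ 2 ^ j ∧ v ≤ ((2 ^ j : ℕ) : ℝ) ∧ 2 ^ j ≤ 2 * Z) then a f * (2 / ((2 ^ j : ℕ) : ℝ)) else 0 := by
    intro f hf
    rw [mem_Icc] at hf
    have hnn : ∀ j ∈ range (Nat.log 2 (2 * Z) + 1), 0 ≤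
        if (f ≤ 2 ^ j ∧ v ≤ ((2 ^ j : ℕ) : ℝ) ∧ 2 ^ j ≤ 2 * Z) then a f * (2 / ((2 ^ j : ℕ) : ℝ)) else 0 := by
      intro j _
      split_ifs
      · exact mul_nonneg (ha f) (by positivity)
      · exact le_rfl
    rcases lt_or_ge (f : ℝ) v with hfv | hfv
    · rw [hv f hf.1 hfv]
      simp
    · have e1 : f ≤ 2 ^ Nat.clog 2 f := Nat.le_pow_clog (by norm_num) f
      have e2 : 2 ^ (Nat.clog 2 f).pred < f := Nat.pow_pred_clog_lt_self (by norm_num) (by omega)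
      have e3 : 1 ≤ Nat.clog 2 f := Nat.clog_pos (by norm_num) hf.1
      have e4 : 2 ^ Nat.clog 2 f < 2 * f := by
        have : 2 ^ Nat.clog 2 f = 2 * 2 ^ (Nat.clog 2 f).pred := by
          rw [← pow_succ']
          congr 1
          simp only [Nat.pred_eq_sub_one]
          omega
        omega
      have e5 : 2 ^ Nat.clog 2 f ≤ 2 * Z := by omega
      have e6 : Nat.clog 2 f ∈ range (Nat.log 2 (2 * Z) + 1) := by
        rw [mem_range, Nat.lt_succ_iff]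
        exact Nat.le_log_of_pow_le (by norm_num) e5
      refine le_trans ?_ (single_le_sum hnn e6)
      have e7 : v ≤ ((2 ^ Nat.clog 2 f : ℕ) : ℝ) := hfv.trans (by exact_mod_cast e1)
      rw [if_pos ⟨e1, e7, e5⟩, div_eq_mul_one_div]
      apply mul_le_mul_of_nonneg_left _ (ha f)
      have hf0 : (0 : ℝ) < f := by exact_mod_cast (by omega : 0 < f)
      have hp0 : (0 : ℝ) < ((2 ^ Nat.clog 2 f : ℕ) : ℝ) := by positivity
      rw [div_le_div_iff₀ hf0 hp0, one_mul]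
      exact_mod_cast e4.le
  refine (sum_le_sum h1).trans ?_
  rw [sum_comm]
  have h2 : ∀ j ∈ range (Nat.log 2 (2 * Z) + 1), ∑ f ∈ Icc 2 Z,
      (if (f ≤ 2 ^ j ∧ v ≤ ((2 ^ j : ℕ) : ℝ) ∧ 2 ^ j ≤ 2 * Z) then a f * (2 / ((2 ^ j : ℕ) : ℝ)) else 0) ≤ 2 * B := by
    intro j _
    by_cases hj : v ≤ ((2 ^ j : ℕ) : ℝ) ∧ 2 ^ j ≤ 2 * Z
    · have hp0 : (0 : ℝ) < ((2 ^ j : ℕ) : ℝ) := by positivity
      calc ∑ f ∈ Icc 2 Z, (if (f ≤ 2 ^ j ∧ v ≤ ((2 ^ j : ℕ) : ℝ) ∧ 2 ^ j ≤ 2 * Z) then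
              a f * (2 / ((2 ^ j : ℕ) : ℝ)) else 0)
          = ∑ f ∈ (Icc 2 Z).filter (fun f => f ≤ 2 ^ j ∧ v ≤ ((2 ^ j : ℕ) : ℝ) ∧ 2 ^ j ≤ 2 * Z),
              a f * (2 / ((2 ^ j : ℕ) : ℝ)) := (sum_filter _ _).symm
        _ ≤ ∑ f ∈ Icc 1 (2 ^ j), a f * (2 / ((2 ^ j : ℕ) : ℝ)) := by
            apply sum_le_sum_of_subset_of_nonneg
            · intro f hf
              rw [mem_filter, mem_Icc] at hf
              rw [mem_Icc]
              omega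
            · intro f _ _
              exact mul_nonneg (ha f) (by positivity)
        _ = (∑ f ∈ Icc 1 (2 ^ j), a f) * (2 / ((2 ^ j : ℕ) : ℝ)) := by rw [sum_mul]
        _ ≤ (B * ((2 ^ j : ℕ) : ℝ)) * (2 / ((2 ^ j : ℕ) : ℝ)) :=
            mul_le_mul_of_nonneg_right (hF _ hj.1 hj.2) (by positivity)
        _ = 2 * B := by field_simp
    · rw [sum_eq_zero]
      · positivity
      · intro f _
        rw [if_neg]
        exact fun h => hj h.2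
  refine (sum_le_sum h2).trans (le_of_eq ?_)
  rw [sum_const, card_range, nsmul_eq_mul]
  push_cast
  ring

open Classical in
/-- the number of the moduli with an exceptional conductor -/
theorem moduli (n : ℕ) (hn : 1 ≤ n) (β : ℝ) (hβ : 1 ≤ β) (hβ4 : β < 4 / 3) :
    ∃ δ κ C : ℝ, 0 < δ ∧ 0 < κ ∧ ∃ N₀ : ℕ, ∀ N : ℕ, N₀ ≤ N →
    (((Icc 1 (4 * N)).filter (fun q => ∃ f, 2 ≤ f ∧ f ∣ q ∧
      (exc ⌊(N : ℝ) ^ (β / n)⌋₊ ⌊(N : ℝ) ^ (1 / (n : ℝ))⌋₊ ((N : ℝ) ^ ((1 - δ) / n)) f).Nonempty)).card : ℝ) ≤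
      C * (N : ℝ) ^ (1 - κ) := by
  have hn0 : (0 : ℝ) < n := by exact_mod_cast hn
  obtain ⟨s, hs0, hs1, δ, hδ, hδs, N₀, hN₀⟩ := sizes n hn β hβ hβ4
  obtain ⟨ε, hε⟩ : ∃ ε : ℝ, ε = s / (4 * n) := ⟨_, rfl⟩
  have hε0 : 0 < ε := by rw [hε]; positivity
  refine ⟨δ, s / (4 * n), 16 * (4 * 8 ^ ε / ε + 1), hδ, by positivity, N₀ + 1, fun N hN => ?_⟩
  have hN1 : (1 : ℝ) ≤ N := by exact_mod_cast (by omega : 1 ≤ N)
  have hN0 : (0 : ℝ) < N := by linarith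
  obtain ⟨X, hX⟩ : ∃ X : ℕ, X = ⌊(N : ℝ) ^ (β / n)⌋₊ := ⟨_, rfl⟩
  obtain ⟨W, hW⟩ : ∃ W : ℕ, W = ⌊(N : ℝ) ^ (1 / (n : ℝ))⌋₊ := ⟨_, rfl⟩
  obtain ⟨V, hV⟩ : ∃ V : ℝ, V = (N : ℝ) ^ ((1 - δ) / n) := ⟨_, rfl⟩
  have h0 := hN₀ N (by omega)
  rw [← hX, ← hW, ← hV] at h0 ⊢
  have hvan : ∀ f : ℕ, 2 ≤ f → (f : ℝ) < V → ((exc X W V f).card : ℝ) = 0 := by
    intro f hf hfV
    rw [Nat.cast_eq_zero, card_eq_zero, eq_empty_iff_forall_notMem]
    intro χ hχ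
    unfold exc prim at hχ
    rw [mem_filter, mem_filter] at hχ
    obtain ⟨⟨-, hprim⟩, M, H, -, -, hb⟩ := hχ
    have : NeZero f := ⟨by omega⟩
    have hχ1 : χ ≠ 1 := by
      intro h
      have h2 : χ.conductor = 1 := by
        rw [h]
        exact DirichletCharacter.conductor_one
      have h3 : χ.conductor = f := hprim
      omega
    have h4 : ‖cs χ M H‖ ≤ f := by
      rw [cs_eq]
      have hper : ∀ (c : ZMod f), ∑ b ∈ range f, χ (c + (b : ZMod f)) = 0 := by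
        intro c
        have h5 : ∑ b ∈ range f, χ (c + (b : ZMod f)) = ∑ b : ZMod f, χ (c + b) := by
          symm
          refine sum_nbij' (fun b : ZMod f => b.val) (fun b : ℕ => (b : ZMod f)) ?_ ?_ ?_ ?_ ?_
          · intro b _; exact mem_range.2 (ZMod.val_lt b)
          · intro b _; exact mem_univ _
          · intro b _; exact ZMod.natCast_zmod_val b
          · intro b hb; exact ZMod.val_cast_of_lt (mem_range.1 hb)
          · intro b _; rw [ZMod.natCast_zmod_val]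
        rw [h5, Fintype.sum_equiv (Equiv.addLeft c) (fun b => χ (c + b)) (fun b => χ b) (fun b => rfl)]
        exact MulChar.sum_eq_zero_of_ne_one hχ1
      have hred : ∀ t (c : ZMod f), ∑ b ∈ range (f * t), χ (c + (b : ZMod f)) = 0 := by
        intro t
        induction t with
        | zero => intro c; simp
        | succ t ih =>
          intro c
          rw [Nat.mul_succ, sum_range_add, ih c, zero_add]
          rw [← hper c]
          refine sum_congr rfl fun b _ => ?_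
          push_cast
          simp
      have hdec : H = f * (H / f) + H % f := (Nat.div_add_mod H f).symm
      rw [hdec, sum_range_add, hred, zero_add]
      refine (norm_sum_le _ _).trans ?_
      calc ∑ b ∈ range (H % f), ‖χ (((M + 1 : ℕ) : ZMod f) + ((f * (H / f) + b : ℕ) : ZMod f))‖
          ≤ ∑ b ∈ range (H % f), (1 : ℝ) := sum_le_sum fun b _ => χ.norm_le_one _
        _ = (H % f : ℕ) := by rw [sum_const, card_range, nsmul_eq_mul, mul_one]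
        _ ≤ f := by exact_mod_cast (Nat.mod_lt H (by omega)).le
    linarith
  have hVs : (N : ℝ) ^ ((1 - s) / n) ≤ V := by
    rw [hV]
    apply Real.rpow_le_rpow_of_exponent_le hN1
    apply div_le_div_of_nonneg_right _ hn0.le
    linarith
  have hdy := dyadic (fun f => ((exc X W V f).card : ℝ)) (fun f => Nat.cast_nonneg _) (4 * N) V
    (2 * (N : ℝ) ^ (-(s / (2 * n)))) (by positivity) hvan (by
      intro F hF1 hF2
      refine (h0 F (hVs.trans hF1) (by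
        have : (F : ℝ) ≤ ((2 * (4 * N) : ℕ) : ℝ) := by exact_mod_cast hF2
        push_cast at this
        linarith)).trans (le_of_eq (by ring)))
  have hsub : (Icc 1 (4 * N)).filter (fun q => ∃ f, 2 ≤ f ∧ f ∣ q ∧ (exc X W V f).Nonempty) ⊆
      ((Icc 2 (4 * N)).filter (fun f => (exc X W V f).Nonempty)).biUnion
        (fun f => (Icc 1 (4 * N)).filter (fun q => f ∣ q)) := by
    intro q hq
    rw [mem_filter, mem_Icc] at hq
    obtain ⟨hq1, f, hf2, hfq, hfn⟩ := hq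
    rw [mem_biUnion]
    refine ⟨f, mem_filter.2 ⟨mem_Icc.2 ⟨hf2, (Nat.le_of_dvd (by omega) hfq).trans hq1.2⟩, hfn⟩, ?_⟩
    exact mem_filter.2 ⟨mem_Icc.2 hq1, hfq⟩
  have h1 : (((Icc 1 (4 * N)).filter (fun q => ∃ f, 2 ≤ f ∧ f ∣ q ∧ (exc X W V f).Nonempty)).card : ℝ) ≤
      4 * N * ∑ f ∈ Icc 2 (4 * N), ((exc X W V f).card : ℝ) / f := by
    have e1 := (card_le_card hsub).trans card_biUnion_le
    have e2 : (((Icc 1 (4 * N)).filter (fun q => ∃ f, 2 ≤ f ∧ f ∣ q ∧ (exc X W V f).Nonempty)).card : ℝ) ≤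
        ∑ f ∈ (Icc 2 (4 * N)).filter (fun f => (exc X W V f).Nonempty),
          (((Icc 1 (4 * N)).filter (fun q => f ∣ q)).card : ℝ) := by exact_mod_cast e1
    refine e2.trans ?_
    rw [mul_sum]
    refine (sum_le_sum (fun f hf => ?_)).trans (sum_le_sum_of_subset_of_nonneg (filter_subset _ _)
      (f := fun f => 4 * (N : ℝ) * (((exc X W V f).card : ℝ) / f)) (fun f _ _ => by positivity))
    rw [mem_filter, mem_Icc] at hf
    have e3 := card_multiples (4 * N) f (by omega)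
    have e4 : (1 : ℝ) ≤ (exc X W V f).card := by exact_mod_cast card_pos.2 hf.2
    have hf0 : (0 : ℝ) < f := by exact_mod_cast (by omega : 0 < f)
    push_cast at e3
    calc (((Icc 1 (4 * N)).filter (fun q => f ∣ q)).card : ℝ) ≤ 4 * N / f := e3
      _ = 4 * (N : ℝ) * (1 / f) := by ring
      _ ≤ 4 * (N : ℝ) * (((exc X W V f).card : ℝ) / f) := by
          apply mul_le_mul_of_nonneg_left _ (by positivity)
          exact div_le_div_of_nonneg_right e4 hf0.le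
  refine h1.trans ?_
  have hlog : ((Nat.log 2 (2 * (4 * N)) : ℕ) : ℝ) + 1 ≤ (4 * 8 ^ ε / ε + 1) * (N : ℝ) ^ ε := by
    have e1 : ((Nat.log 2 (2 * (4 * N)) : ℕ) : ℝ) ≤ Real.logb 2 ((2 * (4 * N) : ℕ) : ℝ) := by
      have := Real.natLog_le_logb (2 * (4 * N)) 2
      exact_mod_cast this
    have e2 : Real.logb 2 ((2 * (4 * N) : ℕ) : ℝ) ≤ 4 * Real.log ((2 * (4 * N) : ℕ) : ℝ) := by
      rw [Real.logb, div_le_iff₀ (Real.log_pos (by norm_num))]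
      have e3 : (0 : ℝ) ≤ Real.log ((2 * (4 * N) : ℕ) : ℝ) := Real.log_natCast_nonneg _
      have e4 : (1 : ℝ) / 2 ≤ Real.log 2 := by linarith [Real.log_two_gt_d9]
      nlinarith
    have e5 : Real.log ((2 * (4 * N) : ℕ) : ℝ) ≤ ((2 * (4 * N) : ℕ) : ℝ) ^ ε / ε :=
      Real.log_le_rpow_div (by positivity) hε0
    have e6 : ((2 * (4 * N) : ℕ) : ℝ) ^ ε = 8 ^ ε * (N : ℝ) ^ ε := by
      rw [← Real.mul_rpow (by norm_num) hN0.le]
      push_cast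
      congr 1
      ring
    rw [e6] at e5
    have e7 : (1 : ℝ) ≤ (N : ℝ) ^ ε := Real.one_le_rpow hN1 hε0.le
    calc ((Nat.log 2 (2 * (4 * N)) : ℕ) : ℝ) + 1 ≤ 4 * (8 ^ ε * (N : ℝ) ^ ε / ε) + (N : ℝ) ^ ε := by linarith
      _ = _ := by ring
  calc 4 * N * ∑ f ∈ Icc 2 (4 * N), ((exc X W V f).card : ℝ) / f
      ≤ 4 * N * (2 * (2 * (N : ℝ) ^ (-(s / (2 * n)))) * (((Nat.log 2 (2 * (4 * N)) : ℕ) : ℝ) + 1)) :=
        mul_le_mul_of_nonneg_left hdy (by positivity)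
    _ ≤ 4 * N * (2 * (2 * (N : ℝ) ^ (-(s / (2 * n)))) * ((4 * 8 ^ ε / ε + 1) * (N : ℝ) ^ ε)) := by
        apply mul_le_mul_of_nonneg_left _ (by positivity)
        exact mul_le_mul_of_nonneg_left hlog (by positivity)
    _ = 16 * (4 * 8 ^ ε / ε + 1) * (N * (N : ℝ) ^ (-(s / (2 * n))) * (N : ℝ) ^ ε) := by ring
    _ = 16 * (4 * 8 ^ ε / ε + 1) * (N : ℝ) ^ (1 - s / (4 * n)) := by
        congr 1
        have e8 : (N : ℝ) * (N : ℝ) ^ (-(s / (2 * n))) = (N : ℝ) ^ (1 + -(s / (2 * n))) := by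
          rw [Real.rpow_add hN0, Real.rpow_one]
        rw [e8, ← Real.rpow_add hN0]
        congr 1
        rw [hε]
        ring

end Pool.Agent.Q331.CM
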