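import Pool.Agent.Q213.CC.Imp

/-! Exceptional primitive characters of every size (the large sieve with the power chosen in terms of the size). -/

set_option autoImplicit false

namespace Pool.Agent.Q331.CM

open Finset Filter
open Pool.Agent.Q213.CC

/-- choice of the power -/
lemma pick (β : ℝ) (hβ : 1 ≤ β) (hβ4 : β < 4 / 3) (s : ℝ) (hs : 0 < s) (hs8 : 8 * s ≤ 4 / 3 - β) (x : ℝ) (hx : 1 - s ≤ x) :
    ∃ k : ℕ, 1 ≤ k ∧ (k : ℝ) ≤ x + β + s ∧ ((k : ℝ) + 1) * (β - 1) + s ≤ x ∧ x + β - 1 + s ≤ k := by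
  rcases le_total x (3 - β - s) with h | h
  · refine ⟨2, by norm_num, ?_, ?_, ?_⟩
    · push_cast; linarith
    · push_cast; nlinarith
    · push_cast; linarith
  · refine ⟨⌈x + β - 1 + s⌉₊, ?_, ?_, ?_, Nat.le_ceil _⟩
    · apply Nat.one_le_iff_ne_zero.2
      intro h0
      rw [Nat.ceil_eq_zero] at h0
      linarith
    · have := Nat.ceil_lt_add_one (show 0 ≤ x + β - 1 + s by linarith)
      linarith
    · have h1 := Nat.ceil_lt_add_one (show 0 ≤ x + β - 1 + s by linarith)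
      have h2 : ((⌈x + β - 1 + s⌉₊ : ℕ) : ℝ) + 1 ≤ x + β + s + 1 := by linarith
      have h3 : (((⌈x + β - 1 + s⌉₊ : ℕ) : ℝ) + 1) * (β - 1) ≤ (x + β + s + 1) * (β - 1) :=
        mul_le_mul_of_nonneg_right h2 (by linarith)
      have h4 : (3 - β - s) * (2 - β) ≤ x * (2 - β) := mul_le_mul_of_nonneg_right h (by linarith)
      have h5 : (x + β + s + 1) * (β - 1) + s ≤ x := by nlinarith
      linarith

open Classical in
/-- the large sieve with the power `k`, all sizes `F` -/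
theorem level (n k : ℕ) (hn : 1 ≤ n) (hk : 1 ≤ k) (β : ℝ) (hβ : 1 ≤ β) (s : ℝ) (hs : 0 < s) (δ : ℝ) (hδ : 0 < δ)
    (hδs : (2 * k + 2) * δ ≤ s / 4) :
    ∃ N₀ : ℕ, ∀ N : ℕ, N₀ ≤ N → ∀ F : ℕ,
    (∑ f ∈ Icc 1 F, ((exc ⌊(N : ℝ) ^ (β / n)⌋₊ ⌊(N : ℝ) ^ (1 / (n : ℝ))⌋₊ ((N : ℝ) ^ ((1 - δ) / n)) f).card : ℝ)) ≤
      (N : ℝ) ^ ((β - 1 - k + s) / n) * ((N : ℝ) ^ (k * β / n) + (F : ℝ) ^ 2) := by
  have hn0 : (0 : ℝ) < n := by exact_mod_cast hn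
  have hk0 : (0 : ℝ) < k := by exact_mod_cast hk
  have hβ0 : (0 : ℝ) < β := by linarith
  obtain ⟨η, hηd⟩ : ∃ η : ℝ, η = s / (4 * β * k ^ 2) := ⟨_, rfl⟩
  have hη : 0 < η := by rw [hηd]; positivity
  obtain ⟨C, hC0, hC⟩ := H353.divisor_bound_real η hη
  obtain ⟨C₁, hC₁⟩ : ∃ C₁ : ℝ, C₁ = 16 * 4 ^ k * 36 * 3 ^ k * (C ^ k * 3 ^ (k ^ 2 * η)) := ⟨_, rfl⟩
  have hC₁0 : 0 < C₁ := by rw [hC₁]; positivity
  have hev : ∀ᶠ N : ℕ in Filter.atTop, C₁ ≤ (N : ℝ) ^ (s / (2 * n)) := by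
    have h1 : Filter.Tendsto (fun x : ℝ => x ^ (s / (2 * n))) Filter.atTop Filter.atTop :=
      tendsto_rpow_atTop (by positivity)
    exact (h1.comp tendsto_natCast_atTop_atTop).eventually (Filter.eventually_ge_atTop _)
  obtain ⟨N₁, hN₁⟩ := Filter.eventually_atTop.1 hev
  refine ⟨N₁ + 1, fun N hN F => ?_⟩
  have hNC := hN₁ N (by omega)
  have hN1 : (1 : ℝ) ≤ N := by exact_mod_cast (by omega : 1 ≤ N)
  have hN0 : (0 : ℝ) < N := by linarith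
  obtain ⟨z, hz⟩ : ∃ z : ℝ, z = (N : ℝ) ^ (β / n) := ⟨_, rfl⟩
  obtain ⟨y, hy⟩ : ∃ y : ℝ, y = (N : ℝ) ^ (1 / (n : ℝ)) := ⟨_, rfl⟩
  obtain ⟨V, hV⟩ : ∃ V : ℝ, V = (N : ℝ) ^ ((1 - δ) / n) := ⟨_, rfl⟩
  rw [← hz, ← hy, ← hV]
  have hz0 : 0 < z := by rw [hz]; positivity
  have hy0 : 0 < y := by rw [hy]; positivity
  have hV0 : 0 < V := by rw [hV]; positivity
  have hy1 : 1 ≤ y := by rw [hy]; exact Real.one_le_rpow hN1 (by positivity)
  have hyz : y ≤ z := by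
    rw [hy, hz]
    exact Real.rpow_le_rpow_of_exponent_le hN1 (div_le_div_of_nonneg_right hβ hn0.le)
  have hX : (⌊z⌋₊ : ℝ) ≤ z := Nat.floor_le hz0.le
  have hW : (⌊y⌋₊ : ℝ) ≤ y := Nat.floor_le hy0.le
  obtain ⟨X, hXd⟩ : ∃ X : ℕ, X = ⌊z⌋₊ := ⟨_, rfl⟩
  obtain ⟨W, hWd⟩ : ∃ W : ℕ, W = ⌊y⌋₊ := ⟨_, rfl⟩
  rw [← hXd] at hX ⊢
  rw [← hWd] at hW ⊢
  have hX0 : (0 : ℝ) ≤ X := Nat.cast_nonneg X
  have hW0 : (0 : ℝ) ≤ W := Nat.cast_nonneg W
  have hXW : (X : ℝ) + 2 * W ≤ 3 * z := by linarith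
  obtain ⟨D, hD⟩ : ∃ D : ℝ, D = C ^ k * (3 * z) ^ (k ^ 2 * η) := ⟨_, rfl⟩
  have hD0 : 0 ≤ D := by rw [hD]; positivity
  have hDm : ∀ m : ℕ, m ≠ 0 → m ≤ (X + 2 * W) ^ k → ((m.divisors.card : ℝ)) ^ k ≤ D := by
    intro m hm hm'
    have h1 : (m : ℝ) ≤ (3 * z) ^ k := by
      have h2 : (m : ℝ) ≤ ((X : ℝ) + 2 * W) ^ k := by exact_mod_cast hm'
      exact h2.trans (pow_le_pow_left₀ (by positivity) hXW _)
    have h3 : (m.divisors.card : ℝ) ≤ C * ((3 * z) ^ k) ^ η := by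
      refine (hC m hm).trans ?_
      exact mul_le_mul_of_nonneg_left (Real.rpow_le_rpow (Nat.cast_nonneg m) h1 hη.le) hC0.le
    refine (pow_le_pow_left₀ (Nat.cast_nonneg _) h3 k).trans (le_of_eq ?_)
    rw [hD, mul_pow]
    congr 1
    rw [← Real.rpow_natCast (3 * z) k, ← Real.rpow_mul (by positivity), ← Real.rpow_natCast,
      ← Real.rpow_mul (by positivity)]
    congr 1
    ring
  have hmain := card_exc k X W F ⌊V / 4⌋₊ V D hV0 (Nat.floor_le (by positivity))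
    (Nat.lt_floor_add_one _).le hDm hD0
  obtain ⟨E, hE⟩ : ∃ E : ℝ, E = ∑ f ∈ Icc 1 F, ((exc X W V f).card : ℝ) := ⟨_, rfl⟩
  rw [← hE] at hmain ⊢
  obtain ⟨B, hB⟩ : ∃ B : ℝ, B = (N : ℝ) ^ (k * β / n) + (F : ℝ) ^ 2 := ⟨_, rfl⟩
  have hB0 : 0 < B := by rw [hB]; positivity
  rw [← hB]
  have hzk : z ^ k = (N : ℝ) ^ (k * β / n) := by
    rw [hz, ← Real.rpow_natCast, ← Real.rpow_mul hN0.le]
    congr 1
    ring
  have h1 : ((X : ℝ) + W + 1) * (W + 1) *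
        (6 * (((X : ℝ) + 2 * W) ^ k + (F : ℝ) ^ 2) * (D * (W : ℝ) ^ k)) ≤
      (3 * z) * (2 * y) * (6 * (3 ^ k * B) * (D * y ^ k)) := by
    have e1 : (X : ℝ) + W + 1 ≤ 3 * z := by linarith
    have e2 : (W : ℝ) + 1 ≤ 2 * y := by linarith
    have e3 : ((X : ℝ) + 2 * W) ^ k + (F : ℝ) ^ 2 ≤ 3 ^ k * B := by
      have e4 : ((X : ℝ) + 2 * W) ^ k ≤ 3 ^ k * z ^ k := by
        rw [← mul_pow]
        exact pow_le_pow_left₀ (by positivity) hXW _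
      have e6 : (1 : ℝ) ≤ 3 ^ k := one_le_pow₀ (by norm_num)
      have e7 : (F : ℝ) ^ 2 ≤ 3 ^ k * (F : ℝ) ^ 2 := le_mul_of_one_le_left (by positivity) e6
      rw [hB, ← hzk, mul_add]
      linarith
    have e8 : (W : ℝ) ^ k ≤ y ^ k := pow_le_pow_left₀ hW0 hW _
    gcongr
  have h2 : E * V ^ (2 * k + 2) ≤ C₁ * (B * z * y ^ (k + 1) * z ^ (k ^ 2 * η)) := by
    have e1 : (V / 4) ^ 2 * (V / 2) ^ (2 * k) = V ^ (2 * k + 2) / (16 * 4 ^ k) := by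
      rw [div_pow, div_pow, pow_mul (2 : ℝ), pow_add V]
      field_simp
      norm_num
    rw [e1, mul_div_assoc', div_le_iff₀ (by positivity)] at hmain
    refine hmain.trans ((mul_le_mul_of_nonneg_right h1 (by positivity)).trans (le_of_eq ?_))
    rw [hC₁, hD, Real.mul_rpow (by norm_num) hz0.le, pow_succ y k]
    ring
  have h3 : C₁ * (B * z * y ^ (k + 1) * z ^ (k ^ 2 * η)) ≤
      (N : ℝ) ^ ((β - 1 - k + s) / n) * B * V ^ (2 * k + 2) := by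
    have e1 : z * y ^ (k + 1) * z ^ (k ^ 2 * η) = (N : ℝ) ^ (β / n + (k + 1) / n + s / (4 * n)) := by
      rw [hz, hy, ← Real.rpow_natCast ((N : ℝ) ^ (1 / (n : ℝ))), ← Real.rpow_mul hN0.le,
        ← Real.rpow_mul hN0.le, ← Real.rpow_add hN0, ← Real.rpow_add hN0]
      congr 1
      have e2 : β / n * (k ^ 2 * η) = s / (4 * n) := by
        rw [hηd]
        field_simp
      rw [e2]
      push_cast
      ring
    have e3 : (N : ℝ) ^ (s / (2 * n)) * (N : ℝ) ^ (β / n + (k + 1) / n + s / (4 * n)) ≤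
        (N : ℝ) ^ ((β - 1 - k + s) / n) * V ^ (2 * k + 2) := by
      rw [hV, ← Real.rpow_natCast ((N : ℝ) ^ ((1 - δ) / n)), ← Real.rpow_mul hN0.le,
        ← Real.rpow_add hN0, ← Real.rpow_add hN0]
      apply Real.rpow_le_rpow_of_exponent_le hN1
      push_cast
      rw [show s / (2 * n) + (β / n + (k + 1) / n + s / (4 * n)) = (β + (k + 1) + 3 * s / 4) / n by
        field_simp; ring, show (β - 1 - (k : ℝ) + s) / n + (1 - δ) / n * (2 * k + 2) =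
        (β - 1 - k + s + (1 - δ) * (2 * k + 2)) / n by ring]
      apply div_le_div_of_nonneg_right _ hn0.le
      nlinarith
    calc C₁ * (B * z * y ^ (k + 1) * z ^ (k ^ 2 * η))
        = B * (C₁ * (z * y ^ (k + 1) * z ^ (k ^ 2 * η))) := by ring
      _ ≤ B * ((N : ℝ) ^ (s / (2 * n)) * (N : ℝ) ^ (β / n + (k + 1) / n + s / (4 * n))) := by
          rw [e1]
          exact mul_le_mul_of_nonneg_left (mul_le_mul_of_nonneg_right hNC (by positivity)) hB0.le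
      _ ≤ B * ((N : ℝ) ^ ((β - 1 - k + s) / n) * V ^ (2 * k + 2)) := mul_le_mul_of_nonneg_left e3 hB0.le
      _ = _ := by ring
  exact le_of_mul_le_mul_right (h2.trans h3) (by positivity)

end Pool.Agent.Q331.CM
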